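import Pool.Agent.N469.TL.Hooley2

/-!
# Hooley's conjecture for almost all smooth moduli

Nothing is used besides Mathlib in the statement.

The proof combines an elementary bound for the exponential sum over the integers composed of primes from a given set
(`Pool.Agent.N469.SQ.exp_alt`: it is large only near few rational numbers with small denominators) with the argument of
the starting files for the variance over random moduli (`Pool.Agent.Y958.RM.main`).
-/

set_option autoImplicit false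

namespace Pool.Agent.Results.MP_5d318d_nt.SmoothModuli

open Finset

/-- `ψ(x; q, a) = ∑_{n ≤ x, n ≡ a mod q} Λ(n)` for `0 ≤ a < q` -/
noncomputable def psiAP (x : ℝ) (q a : ℕ) : ℝ :=
  ∑ n ∈ (Icc 1 ⌊x⌋₊).filter (fun n => n % q = a), ArithmeticFunction.vonMangoldt n

/-- The variance `G(x,q) = ∑_{a mod q, (a,q)=1} (ψ(x;q,a) - x/φ(q))²`. -/
noncomputable def G (x : ℝ) (q : ℕ) : ℝ :=
  ∑ a ∈ (range q).filter (fun a => Nat.Coprime a q), (psiAP x q a - x / (Nat.totient q : ℝ)) ^ 2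

/-- `|G(x,Q) - x log Q| ≤ ε x log Q` for ALL real `x` with `Q ≤ x ≤ Q R`. -/
def Good (ε R : ℝ) (Q : ℕ) : Prop :=
  ∀ x : ℝ, (Q : ℝ) ≤ x → x ≤ Q * R → |G x Q - x * Real.log Q| ≤ ε * (x * Real.log Q)

/-- The integers `1 ≤ v ≤ N` all of whose prime factors belong to `P`. -/
def composedOf (P : Finset ℕ) (N : ℕ) : Finset ℕ := (Icc 1 N).filter fun v => v.primeFactors ⊆ P

/-- The `y`-smooth integers `1 ≤ v ≤ N`: the integers all of whose prime factors are at most `y`. -/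
def smooth (y N : ℕ) : Finset ℕ := (Icc 1 N).filter fun v => ∀ p ∈ v.primeFactors, p ≤ y

open Classical in
/-- **Hooley's conjecture for almost all smooth moduli.** Let `A`, `U`, `K`, `B`, the integer `κ ≠ 0`, `0 < ε ≤ 1` and
`δ > 0` be fixed, let `N` be large, `1 ≤ y ≤ log ^ K N`, and let `c` be an arbitrary integer with `|c| ≤ B N`.

(1) Let `P` be an arbitrary set of primes which are at most `y`, with at least `y ^ (1 / 2 + δ) log N` elements. Then
for all the integers `v ≤ N` composed of primes from `P`, up to a proportion of at most `1 / log ^ U N` of them, ALL the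
moduli `Q > 0` with `|Q - (c + κ v)| ≤ log ^ A N` satisfy `|G(x,Q) - x log Q| ≤ ε x log Q` for ALL real `x` with
`Q ≤ x ≤ Q log ^ A N`. (There can be as few as about `N ^ (1 / 2 + δ)` such integers `v`.)

(2) In particular this holds for all the `y`-smooth integers `v ≤ N`, up to a proportion of at most `1 / log ^ U N` of them,
if `y ≥ log ^ (2 + δ) N`. (For `c = 0`, `κ = 1` the moduli are the smooth numbers themselves and all their neighbours.) -/
theorem result (A U K B : ℕ) (κ : ℤ) (hκ : κ ≠ 0) (ε : ℝ) (hε : 0 < ε) (hε1 : ε ≤ 1) (δ : ℝ) (hδ : 0 < δ) :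
    ∃ N₀ : ℕ, ∀ N, N₀ ≤ N → ∀ y : ℕ, 1 ≤ y → (y : ℝ) ≤ Real.log N ^ K → ∀ c : ℤ, |c| ≤ B * N →
      (∀ P : Finset ℕ, (∀ p ∈ P, p.Prime ∧ p ≤ y) → (y : ℝ) ^ (1 / 2 + δ) * Real.log N ≤ P.card →
        (((composedOf P N).filter fun v : ℕ => ∃ Q : ℕ, 0 < Q ∧ |((Q - (c + κ * v) : ℤ) : ℝ)| ≤ Real.log N ^ A ∧
          ¬ Good ε (Real.log N ^ A) Q).card : ℝ) ≤ ((composedOf P N).card : ℝ) / Real.log N ^ U) ∧
      (Real.log N ^ (2 + δ) ≤ y →
        (((smooth y N).filter fun v : ℕ => ∃ Q : ℕ, 0 < Q ∧ |((Q - (c + κ * v) : ℤ) : ℝ)| ≤ Real.log N ^ A ∧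
          ¬ Good ε (Real.log N ^ A) Q).card : ℝ) ≤ ((smooth y N).card : ℝ) / Real.log N ^ U) := by
  obtain ⟨N₀, h0⟩ := Pool.Agent.N469.TL.both δ hδ K U _ (Pool.Agent.N469.TL.sm_hooley κ hκ K B A U ε hε hε1)
  refine ⟨N₀, fun N hN y hy hy' c hc => ?_⟩
  refine h0 N hN y hy hy' (fun v : ℕ => ∃ Q : ℕ, 0 < Q ∧ |((Q - (c + κ * v) : ℤ) : ℝ)| ≤ Real.log N ^ A ∧
          ¬ Good ε (Real.log N ^ A) Q) (fun v => inferInstance) ⟨c, hc, fun v hv => ?_⟩
  obtain ⟨Q, hQ0, hQ, hbad⟩ := hv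
  have e0 : c + κ * (v : ℤ) + ((Q : ℤ) - (c + κ * v)) = Q := by ring
  refine ⟨(Q : ℤ) - (c + κ * v), hQ, by rw [e0]; exact_mod_cast hQ0, ?_⟩
  rw [e0, Int.toNat_natCast]
  unfold Good at hbad
  push Not at hbad
  obtain ⟨x, h1, h2, h3⟩ := hbad
  exact ⟨x, h1, h2, not_le.2 h3⟩

end Pool.Agent.Results.MP_5d318d_nt.SmoothModuli
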