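import Pool.Agent.N469.TL.Windows

/-!
# Sums of two distinct and almost equal odd primes, for all even integers near almost all smooth numbers

Definitions used, in `Pool.Agent.H560R3.GB`: `C₂`: the twin prime constant `∏_{p > 2} (1 - 1 / (p - 1) ^ 2)`; `sing m`: the
singular series `2 C₂ ∏_{p ∣ m, p > 2} (p - 1) / (p - 2)`.

The proof combines an elementary bound for the exponential sum over the integers composed of primes from a given set
(`Pool.Agent.N469.SQ.exp_alt`: it is large only near few rational numbers with small denominators) with the second moment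
method of the starting files for Goldbach pairs in windows (`Pool.Agent.Y885.tl_windows`).
-/

set_option autoImplicit false

namespace Pool.Agent.Results.MP_61161c_nt.SmoothNeighbourhoods

open Finset Pool.Agent.H560R3.GB

/-- The number of the `p` such that `p` and `p' = m - p` are odd primes, `p < p'` and `p' - p ≤ H`. -/
def N (m H : ℕ) : ℕ :=
  ((range m).filter (fun p => p.Prime ∧ p ≠ 2 ∧ (m - p).Prime ∧ m - p ≠ 2 ∧ p < m - p ∧ m - p ≤ p + H)).card

/-- For every `H` with `m / log ^ A m ≤ H ≤ m` there are distinct odd primes `p < p'` with `p + p' = m` and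
`p' - p ≤ H`, and the number of these pairs is `sing m * H / (2 log ^ 2 m)` up to a relative error of at
most `ε`. -/
def Holds (ε : ℝ) (A m : ℕ) : Prop :=
  ∀ H : ℕ, H ≤ m → (m : ℝ) / Real.log m ^ A ≤ H →
    (∃ p p' : ℕ, p.Prime ∧ p'.Prime ∧ p ≠ 2 ∧ p' ≠ 2 ∧ p < p' ∧ p + p' = m ∧ p' - p ≤ H) ∧
    |(N m H : ℝ) - sing m * H / (2 * Real.log m ^ 2)| ≤ ε * (sing m * H / (2 * Real.log m ^ 2))

lemma N_eq (m H : ℕ) (hm : 2 ∣ m) (hm6 : 6 ≤ m) (hH : H ≤ m) :
    N m H = Pool.Agent.W93.PG.cnt m ((m - H + 1) / 2 - 1) (m / 2 - 1) := by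
  unfold N Pool.Agent.W93.PG.cnt
  congr 1
  ext p
  rw [mem_filter, mem_filter, mem_range, mem_Ioc]
  constructor
  · rintro ⟨h1, h2, h3, h4, h5, h6, h7⟩
    have := h2.two_le
    exact ⟨by omega, h2, h4⟩
  · rintro ⟨⟨h1, h2⟩, h3, h4⟩
    refine ⟨by omega, h3, ?_, h4, by omega, by omega, by omega⟩
    rintro rfl
    have h5 : 2 ∣ m - 2 := by omega
    have h6 := (Nat.prime_dvd_prime_iff_eq Nat.prime_two h4).1 h5
    omega

lemma holds_of (A : ℕ) (ε : ℝ) (hε : 0 < ε) : ∃ m₀ : ℕ, ∀ m : ℕ, m₀ ≤ m → 2 ∣ m →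
    Pool.Agent.W93.PG.WinP (min ε (1 / 2) / 2) (A + 1) m → Holds ε A m := by
  obtain ⟨n1, h1⟩ := Pool.Agent.H373R2.T7.ev_L' 4
  obtain ⟨n2, h2⟩ := Pool.Agent.H373R2.T7.ev_log' (A + 1) 1
  obtain ⟨ε', hε'⟩ : ∃ ε', ε' = min ε (1 / 2) := ⟨_, rfl⟩
  have he0 : 0 < ε' := by rw [hε']; exact lt_min hε (by norm_num)
  have he1 : ε' ≤ ε := by rw [hε']; exact min_le_left _ _
  have he2 : ε' ≤ 1 / 2 := by rw [hε']; exact min_le_right _ _
  obtain ⟨n3, hn3⟩ := exists_nat_ge ((4 / ε') ^ 2)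
  rw [← hε']
  refine ⟨n1 + n2 + n3 + 6, fun m hm hm2 hwin H hH hHm => ?_⟩
  have a1 := h1 m (by omega)
  have a2 := h2 m (by omega)
  have hm4 : (6 : ℝ) ≤ m := by exact_mod_cast (by omega : 6 ≤ m)
  have hm0 : (0 : ℝ) < m := by linarith
  rw [one_mul] at a2
  obtain ⟨M, hM⟩ : ∃ M, M = Real.log (m : ℝ) := ⟨_, rfl⟩
  have hs := Pool.Agent.W93.GB.one_le_sing m
  obtain ⟨S, hS⟩ : ∃ S, S = sing m := ⟨_, rfl⟩
  unfold Pool.Agent.W93.PG.WinP at hwin
  rw [← hM] at a1 a2 hwin hHm ⊢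
  rw [← hS] at hs hwin ⊢
  have hM1 : 1 ≤ M := by linarith
  have hM0 : 0 < M := by linarith
  have hmm : √(m : ℝ) * √(m : ℝ) = m := Real.mul_self_sqrt hm0.le
  have hsm0 : 0 < √(m : ℝ) := Real.sqrt_pos.2 hm0
  have hsmH : √(m : ℝ) ≤ m / M ^ (A + 1) := by
    rw [le_div_iff₀ (by positivity)]
    calc √(m : ℝ) * M ^ (A + 1) ≤ √(m : ℝ) * √(m : ℝ) := mul_le_mul_of_nonneg_left a2 hsm0.le
      _ = m := hmm
  have h4e : 4 / ε' ≤ √(m : ℝ) := by
    apply Real.le_sqrt_of_sq_le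
    refine hn3.trans ?_
    exact_mod_cast (by omega : n3 ≤ m)
  have h8 : 8 ≤ √(m : ℝ) := by
    refine le_trans ?_ h4e
    rw [le_div_iff₀ he0]
    linarith
  have hA1 : (m : ℝ) / M ^ A = m / M ^ (A + 1) * M := by rw [pow_succ]; field_simp
  have hbig : 4 * (m / M ^ (A + 1)) ≤ H := by
    refine le_trans ?_ hHm
    rw [hA1, mul_comm]
    exact mul_le_mul_of_nonneg_left a1 (by positivity)
  obtain ⟨y₁, hy₁⟩ : ∃ y₁, y₁ = (m - H + 1) / 2 - 1 := ⟨_, rfl⟩
  obtain ⟨y₂, hy₂⟩ : ∃ y₂, y₂ = m / 2 - 1 := ⟨_, rfl⟩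
  have hHr : (32 : ℝ) ≤ H := by linarith
  have hH32 : 32 ≤ H := by exact_mod_cast hHr
  have hN := N_eq m H hm2 (by omega) hH
  rw [← hy₁, ← hy₂] at hN
  have hy12 : y₁ < y₂ := by omega
  have hd1 : (y₂ : ℝ) - y₁ ≤ H / 2 := by
    have : 2 * y₂ ≤ 2 * y₁ + H := by omega
    have : (2 : ℝ) * y₂ ≤ 2 * y₁ + H := by exact_mod_cast this
    linarith
  have hd2 : (H : ℝ) / 2 - 1 ≤ (y₂ : ℝ) - y₁ := by
    have : 2 * y₁ + H ≤ 2 * y₂ + 2 := by omega
    have : (2 : ℝ) * y₁ + H ≤ 2 * y₂ + 2 := by exact_mod_cast this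
    linarith
  have hw := hwin y₁ y₂ hy12 (by omega) (by linarith)
  rw [← hN] at hw
  obtain ⟨Δ, hΔ⟩ : ∃ Δ, Δ = (y₂ : ℝ) - y₁ := ⟨_, rfl⟩
  rw [← hΔ] at hw hd1 hd2
  have hSM : 0 < S / M ^ 2 := by positivity
  have e1 : S * Δ / M ^ 2 = S / M ^ 2 * Δ := by ring
  have e2 : S * H / (2 * M ^ 2) = S / M ^ 2 * (H / 2) := by field_simp
  rw [e1] at hw
  rw [e2]
  obtain ⟨T, hT⟩ : ∃ T, T = S / M ^ 2 := ⟨_, rfl⟩
  rw [← hT] at hSM hw ⊢
  have h1H : 1 ≤ ε' / 2 * (H / 2) := by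
    have : 4 / ε' ≤ H := by linarith
    rw [div_le_iff₀ he0] at this
    linarith
  have hmain : |(N m H : ℝ) - T * (H / 2)| ≤ ε' * (T * (H / 2)) := by
    have f1 : |(N m H : ℝ) - T * (H / 2)| ≤ |(N m H : ℝ) - T * Δ| + |T * Δ - T * (H / 2)| := abs_sub_le _ _ _
    have f2 : |T * Δ - T * (H / 2)| ≤ T := by
      rw [← mul_sub, abs_mul, abs_of_pos hSM]
      apply mul_le_of_le_one_right hSM.le
      rw [abs_le]
      constructor <;> linarith
    have f3 : T ≤ T * (ε' / 2 * (H / 2)) := le_mul_of_one_le_right hSM.le h1H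
    have f4 : ε' / 2 * (T * Δ) ≤ ε' / 2 * (T * (H / 2)) := by
      apply mul_le_mul_of_nonneg_left _ (by linarith)
      exact mul_le_mul_of_nonneg_left hd1 hSM.le
    linarith
  have hTH : 0 < T * (H / 2) := by
    have : (0 : ℝ) < H := by linarith
    positivity
  refine ⟨?_, hmain.trans (mul_le_mul_of_nonneg_right he1 hTH.le)⟩
  have h7 : (0 : ℝ) < N m H := by
    rw [abs_le] at hmain
    nlinarith [hmain.1]
  have h8 : 0 < N m H := by exact_mod_cast h7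
  unfold N at h8
  rw [card_pos] at h8
  obtain ⟨p, hp⟩ := h8
  rw [mem_filter, mem_range] at hp
  obtain ⟨q0, q1, q2, q3, q4, q5, q6⟩ := hp
  exact ⟨p, m - p, q1, q3, q2, q4, q5, by omega, by omega⟩

/-- The integers `1 ≤ v ≤ N` all of whose prime factors belong to `P`. -/
def composedOf (P : Finset ℕ) (N : ℕ) : Finset ℕ := (Icc 1 N).filter fun v => v.primeFactors ⊆ P

/-- The `y`-smooth integers `1 ≤ v ≤ N`: the integers all of whose prime factors are at most `y`. -/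
def smooth (y N : ℕ) : Finset ℕ := (Icc 1 N).filter fun v => ∀ p ∈ v.primeFactors, p ≤ y

open Classical in
/-- Let `A`, `W`, `U`, `K`, `B`, the integer `κ ≠ 0`, `ε > 0` and `δ > 0` be fixed, let `N` be large, `1 ≤ y ≤ log ^ K N`, and let
`c` be an arbitrary integer with `|c| ≤ B N`.

(1) Let `P` be an arbitrary set of primes which are at most `y`, with at least `y ^ (1 / 2 + δ) log N` elements. Then
for all the integers `v ≤ N` composed of primes from `P`, up to a proportion of at most `1 / log ^ U N` of them, ALL the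
even integers `m > 0` at a distance of at most `log ^ W N` from `c + κ v` have the following property: for
every `H` with `m / log ^ A m ≤ H ≤ m` the integer `m` is a sum of two distinct odd primes `p < p'` with `p' - p ≤ H`, and the
number of these representations is as predicted, up to a relative error of at most `ε`.
(There can be as few as about `N ^ (1 / 2 + δ)` such integers `v`.)

(2) In particular this holds for all the `y`-smooth integers `v ≤ N`, up to a proportion of at most `1 / log ^ U N` of them,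
if `y ≥ log ^ (2 + δ) N`. -/
theorem result (A W U K B : ℕ) (κ : ℤ) (hκ : κ ≠ 0) (ε : ℝ) (hε : 0 < ε) (δ : ℝ) (hδ : 0 < δ) :
    ∃ N₀ : ℕ, ∀ N, N₀ ≤ N → ∀ y : ℕ, 1 ≤ y → (y : ℝ) ≤ Real.log N ^ K → ∀ c : ℤ, |c| ≤ B * N →
      (∀ P : Finset ℕ, (∀ p ∈ P, p.Prime ∧ p ≤ y) → (y : ℝ) ^ (1 / 2 + δ) * Real.log N ≤ P.card →
        (((composedOf P N).filter fun v : ℕ => ∃ m : ℕ, 0 < m ∧ Even m ∧ |((m - (c + κ * v) : ℤ) : ℝ)| ≤ Real.log N ^ W ∧
          ¬ Holds ε A m).card : ℝ) ≤ ((composedOf P N).card : ℝ) / Real.log N ^ U) ∧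
      (Real.log N ^ (2 + δ) ≤ y →
        (((smooth y N).filter fun v : ℕ => ∃ m : ℕ, 0 < m ∧ Even m ∧ |((m - (c + κ * v) : ℤ) : ℝ)| ≤ Real.log N ^ W ∧
          ¬ Holds ε A m).card : ℝ) ≤ ((smooth y N).card : ℝ) / Real.log N ^ U) := by
  obtain ⟨m₀, hm₀⟩ := holds_of A ε hε
  obtain ⟨N₀, h0⟩ := Pool.Agent.N469.TL.both δ hδ K U _ (Pool.Agent.N469.TL.sm_windows κ hκ K B (A + 1) W U m₀ (min ε (1 / 2) / 2)
    (div_pos (lt_min hε (by norm_num)) (by norm_num)) (fun m => Holds ε A m) hm₀)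
  refine ⟨N₀, fun N hN y hy hy' c hc => ?_⟩
  refine h0 N hN y hy hy' (fun v : ℕ => ∃ m : ℕ, 0 < m ∧ Even m ∧ |((m - (c + κ * v) : ℤ) : ℝ)| ≤ Real.log N ^ W ∧
          ¬ Holds ε A m) (fun v => inferInstance) ⟨c, hc, fun v hv => ?_⟩
  obtain ⟨m, hm0, hme, hm, hbad⟩ := hv
  have e0 : c + κ * (v : ℤ) + ((m : ℤ) - (c + κ * v)) = m := by ring
  refine ⟨(m : ℤ) - (c + κ * v), hm, by rw [e0]; exact_mod_cast hm0, ?_⟩
  rw [e0, Int.toNat_natCast]
  exact ⟨by exact_mod_cast hme.two_dvd, hbad⟩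

end Pool.Agent.Results.MP_61161c_nt.SmoothNeighbourhoods
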