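import Pool.Agent.N469.TL.Pairs
import Pool.Agent.N469.UN.Li

/-!
# The uniform formula of Hardy and Littlewood for prime pairs in the short windows at almost all smooth numbers

Definition used: `Pool.Agent.H560R3.GB.C₂`, the twin prime constant `∏_{p > 2} (1 - 1 / (p - 1) ^ 2)`
(the infimum of the partial products).

The proof combines an elementary bound for the exponential sum over the integers composed of primes from a given set
(`Pool.Agent.N469.SQ.exp_alt`: it is large only near few rational numbers with small denominators) with the second moment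
method of the starting files for prime pairs (`Pool.Agent.Y885.tl_goodD`).
-/

set_option autoImplicit false

namespace Pool.Agent.Results.MP_678834_nt.SmoothWindows

open Finset Pool.Agent.H560R3.GB

/-- `π₂(x, d)`: the number of primes `p ≤ x` for which `p - d` is a prime. -/
noncomputable def pi2 (x : ℝ) (d : ℕ) : ℕ := ((Icc 1 ⌊x⌋₊).filter fun p => p.Prime ∧ (p - d).Prime).card

/-- The singular series `𝔖(d)` of the even number `d > 0`. -/
noncomputable def singular (d : ℕ) : ℝ :=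
  2 * C₂ * ∏ p ∈ d.primeFactors.filter (fun p => 2 < p), ((p : ℝ) - 1) / ((p : ℝ) - 2)

/-- The uniform formula in the window at `D₀`: for ALL even `d > 0` with `D₀ ≤ d ≤ D₀ + (log X) ^ A` and all real `x` with
`X / (log X) ^ E ≤ x ≤ X` the ratio of `π₂(x, d)` and `𝔖(d) x / (log x) ^ 2` differs from `1` by at most `4 / log x`. -/
def Uniform (A E X D₀ : ℕ) : Prop :=
  ∀ d : ℕ, D₀ ≤ d → (d : ℝ) ≤ D₀ + Real.log X ^ A → 0 < d → Even d → ∀ x : ℝ, X / Real.log X ^ E ≤ x → x ≤ X →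
    |(pi2 x d : ℝ) * Real.log x ^ 2 / (singular d * x) - 1| ≤ 4 / Real.log x

/-- The integers `1 ≤ v ≤ N` all of whose prime factors belong to `P`. -/
def composedOf (P : Finset ℕ) (N : ℕ) : Finset ℕ := (Icc 1 N).filter fun v => v.primeFactors ⊆ P

/-- The `y`-smooth integers `1 ≤ v ≤ N`: the integers all of whose prime factors are at most `y`. -/
def smooth (y N : ℕ) : Finset ℕ := (Icc 1 N).filter fun v => ∀ p ∈ v.primeFactors, p ≤ y

lemma pi2_eq (x : ℝ) (hx : 0 ≤ x) (d a : ℕ) : pi2 x d = Pool.Agent.W93.PP.pc d x a 1 := by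
  classical
  unfold pi2 Pool.Agent.W93.PP.pc
  symm
  apply card_bij (fun p _ => p + d)
  · intro p hp
    rw [mem_filter] at hp ⊢
    rw [mem_Icc]
    refine ⟨⟨by have := hp.2.1.two_le; omega, ?_⟩, hp.2.2.1, ?_⟩
    · rw [Nat.le_floor_iff hx]
      push_cast
      exact hp.2.2.2.1
    · rw [Nat.add_sub_cancel]
      exact hp.2.1
  · intro p _ q _ h
    simpa using h
  · intro q hq
    rw [mem_filter, mem_Icc] at hq
    have h2 := hq.2.2.two_le
    refine ⟨q - d, ?_, by omega⟩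
    rw [mem_filter, mem_range]
    have h3 : q - d + d = q := by omega
    refine ⟨by omega, hq.2.2, ?_, ?_, Nat.modEq_one⟩
    · rw [h3]
      exact hq.2.1
    · have h4 : ((q - d : ℕ) : ℝ) + d = q := by exact_mod_cast h3
      rw [h4]
      exact (Nat.le_floor_iff hx).1 hq.1.2

/-- From the estimate with the logarithmic integral to the relative error. -/
lemma ratio : ∃ x₀ : ℝ, ∀ x : ℝ, x₀ ≤ x → ∀ S F : ℝ, 1 ≤ S → |F - S * Pool.Agent.W93.PP.Li2 x| ≤ x / Real.log x ^ 4 →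
    |F * Real.log x ^ 2 / (S * x) - 1| ≤ 4 / Real.log x := by
  obtain ⟨C, hC, hli⟩ := Pool.Agent.N469.UN.li_bd
  have hlo := (Real.isLittleO_pow_log_id_atTop (n := 3)).bound (c := 1 / (4 * C + 1)) (by positivity)
  obtain ⟨x1, hx1⟩ := Filter.eventually_atTop.1 hlo
  refine ⟨max (Real.exp 9) x1, fun x hx S F hS hF => ?_⟩
  have hx9 : Real.exp 9 ≤ x := (le_max_left _ _).trans hx
  have hx1' := hx1 x ((le_max_right _ _).trans hx)
  obtain ⟨l1, l2⟩ := hli x hx9
  have hxpos : 0 < x := (Real.exp_pos 9).trans_le hx9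
  have hL9 : 9 ≤ Real.log x := by
    rw [← Real.log_exp 9]
    exact Real.log_le_log (Real.exp_pos 9) hx9
  obtain ⟨L, hL⟩ : ∃ L, L = Real.log x := ⟨_, rfl⟩
  rw [← hL] at hL9 l1 l2 hF hx1' ⊢
  have hL0 : 0 < L := by linarith
  have hS0 : 0 < S := by linarith
  -- the constant is negligible
  have h3 : (4 * C + 1) * L ^ 3 ≤ x := by
    rw [Real.norm_of_nonneg (by positivity), id, Real.norm_of_nonneg hxpos.le] at hx1'
    rw [one_div, ← div_eq_inv_mul, le_div_iff₀ (by positivity)] at hx1'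
    linarith
  have h4 : C * L ^ 2 / x ≤ 1 / (4 * L) := by
    rw [div_le_div_iff₀ hxpos (by positivity)]
    have : 0 ≤ L ^ 3 := by positivity
    nlinarith
  -- the logarithmic integral
  have h5 : |Pool.Agent.W93.PP.Li2 x * L ^ 2 / x - 1| ≤ 3 / L + 1 / (4 * L) := by
    have e1 : Pool.Agent.W93.PP.Li2 x * L ^ 2 / x - 1 = (Pool.Agent.W93.PP.Li2 x - x / L ^ 2) * (L ^ 2 / x) := by
      field_simp
    have e2 : |Pool.Agent.W93.PP.Li2 x - x / L ^ 2| ≤ 3 * (x / L ^ 3) + C := by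
      rw [abs_le]
      have : 0 ≤ x / L ^ 3 := by positivity
      constructor <;> linarith
    rw [e1, abs_mul, abs_of_nonneg (by positivity : (0 : ℝ) ≤ L ^ 2 / x)]
    calc |Pool.Agent.W93.PP.Li2 x - x / L ^ 2| * (L ^ 2 / x) ≤ (3 * (x / L ^ 3) + C) * (L ^ 2 / x) := by gcongr
      _ = 3 / L + C * L ^ 2 / x := by field_simp
      _ ≤ _ := by linarith
  have h6 : |F * L ^ 2 / (S * x) - Pool.Agent.W93.PP.Li2 x * L ^ 2 / x| ≤ 1 / L ^ 2 := by
    have e1 : F * L ^ 2 / (S * x) - Pool.Agent.W93.PP.Li2 x * L ^ 2 / x = (F - S * Pool.Agent.W93.PP.Li2 x) * (L ^ 2 / (S * x)) := by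
      field_simp
    rw [e1, abs_mul, abs_of_nonneg (by positivity : (0 : ℝ) ≤ L ^ 2 / (S * x))]
    calc |F - S * Pool.Agent.W93.PP.Li2 x| * (L ^ 2 / (S * x)) ≤ (x / L ^ 4) * (L ^ 2 / (1 * x)) := by gcongr
      _ = 1 / L ^ 2 := by field_simp
  have h7 : 1 / L ^ 2 ≤ 1 / (9 * L) := by
    apply one_div_le_one_div_of_le (by positivity)
    nlinarith
  calc |F * L ^ 2 / (S * x) - 1| = |(F * L ^ 2 / (S * x) - Pool.Agent.W93.PP.Li2 x * L ^ 2 / x) +
        (Pool.Agent.W93.PP.Li2 x * L ^ 2 / x - 1)| := by congr 1; ring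
    _ ≤ |F * L ^ 2 / (S * x) - Pool.Agent.W93.PP.Li2 x * L ^ 2 / x| + |Pool.Agent.W93.PP.Li2 x * L ^ 2 / x - 1| := abs_add_le _ _
    _ ≤ 1 / (9 * L) + (3 / L + 1 / (4 * L)) := by linarith
    _ = (3 + 1 / 4 + 1 / 9) / L := by field_simp; ring
    _ ≤ 4 / L := by gcongr; norm_num

open Classical in
/-- Let `A`, `E`, `U`, `W`, `K`, `B₀`, the integer `κ ≠ 0` and `δ > 0` be fixed, let `N` be large, `1 ≤ y ≤ log ^ K N`, let
`c` be an arbitrary integer with `|c| ≤ B₀ N`, and let `X` be a number with `N (log X) ^ (E + 10) ≤ X ≤ N (log X) ^ W`.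

(1) Let `P` be an arbitrary set of primes which are at most `y`, with at least `y ^ (1 / 2 + δ) log N` elements. Then
for all the integers `v ≤ N` composed of primes from `P`, up to a proportion of at most `1 / log ^ U N` of them, the uniform
formula holds in the window at `D₀ = c + κ v` (if this number is not negative): for ALL even `d > 0` with
`D₀ ≤ d ≤ D₀ + (log X) ^ A` and all `x` with `X / (log X) ^ E ≤ x ≤ X`
`|π₂(x, d) (log x) ^ 2 / (𝔖(d) x) - 1| ≤ 4 / log x`. (There can be as few as about `N ^ (1 / 2 + δ)` such integers `v`.)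

(2) In particular this holds for all the `y`-smooth integers `v ≤ N`, up to a proportion of at most `1 / log ^ U N` of them,
if `y ≥ log ^ (2 + δ) N`. -/
theorem result (A E U W K B₀ : ℕ) (κ : ℤ) (hκ : κ ≠ 0) (δ : ℝ) (hδ : 0 < δ) :
    ∃ N₀ : ℕ, ∀ N, N₀ ≤ N → ∀ y : ℕ, 1 ≤ y → (y : ℝ) ≤ Real.log N ^ K → ∀ c : ℤ, |c| ≤ B₀ * N →
      ∀ X : ℕ, (N : ℝ) ≤ X → (N : ℝ) * Real.log X ^ (E + 10) ≤ X → (X : ℝ) ≤ N * Real.log X ^ W →
      (∀ P : Finset ℕ, (∀ p ∈ P, p.Prime ∧ p ≤ y) → (y : ℝ) ^ (1 / 2 + δ) * Real.log N ≤ P.card →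
        (((composedOf P N).filter fun v : ℕ => 0 ≤ c + κ * v ∧ ¬ Uniform A E X (c + κ * v).toNat).card : ℝ) ≤
          ((composedOf P N).card : ℝ) / Real.log N ^ U) ∧
      (Real.log N ^ (2 + δ) ≤ y →
        (((smooth y N).filter fun v : ℕ => 0 ≤ c + κ * v ∧ ¬ Uniform A E X (c + κ * v).toNat).card : ℝ) ≤
          ((smooth y N).card : ℝ) / Real.log N ^ U) := by
  obtain ⟨N₁, h0⟩ := Pool.Agent.N469.TL.both δ hδ K U _ (Pool.Agent.N469.TL.sm_pairs κ hκ K B₀ A 0 (E + 4) U W)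
  obtain ⟨x₀, hratio⟩ := ratio
  have hlo := (Real.isLittleO_pow_log_id_atTop (n := E)).bound (c := 1 / (|x₀| + 2)) (by positivity)
  obtain ⟨x1, hx1⟩ := Filter.eventually_atTop.1 hlo
  refine ⟨N₁ + ⌈|x1|⌉₊ + 3, fun N hN y hy hy' c hc X hX0 hX1 hX2 => ?_⟩
  refine h0 N (by omega) y hy hy' (fun v : ℕ => 0 ≤ c + κ * v ∧ ¬ Uniform A E X (c + κ * v).toNat) (fun v => inferInstance)
    ⟨c, X, hc, hX0, hX1, hX2, fun v hv => ⟨hv.1, fun hgood => hv.2 ?_⟩⟩
  have hNX : N ≤ X := by exact_mod_cast hX0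
  have hX3 : (3 : ℝ) ≤ X := by exact_mod_cast (by omega : 3 ≤ X)
  have hLX : 1 ≤ Real.log X := by
    rw [Real.le_log_iff_exp_le (by linarith)]
    have := Real.exp_one_lt_d9
    linarith
  intro d hd1 hd2 hd0 hdev x hxa hxb
  obtain ⟨δ, hδ⟩ := Nat.exists_eq_add_of_le hd1
  have hδL : (δ : ℝ) ≤ Real.log X ^ A := by
    rw [hδ] at hd2
    push_cast at hd2 ⊢
    linarith
  -- `x` is large
  have hbig : |x₀| + 2 ≤ x := by
    have h1 : x1 ≤ (X : ℝ) := by
      refine (le_abs_self _).trans ((Nat.le_ceil _).trans ?_)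
      exact_mod_cast (by omega : ⌈|x1|⌉₊ ≤ X)
    have h2 := hx1 X h1
    rw [Real.norm_of_nonneg (by positivity), id, Real.norm_of_nonneg (by linarith), one_div, ← div_eq_inv_mul,
      le_div_iff₀ (by positivity)] at h2
    refine le_trans ?_ hxa
    rw [le_div_iff₀ (by positivity)]
    linarith
  have hx2 : 2 ≤ x := by have := abs_nonneg x₀; linarith
  have hx0 : x₀ ≤ x := by have := le_abs_self x₀; linarith
  have h2 := hgood δ 1 1 hδL le_rfl (by rw [pow_zero]; norm_num) (Nat.coprime_one_right _) (Nat.coprime_one_right _)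
    (by rw [← hδ]; exact hdev.two_dvd) (by rw [← hδ]; exact hd0.ne') x hx2 hxb
  rw [← hδ, ← pi2_eq x (by linarith) d 1] at h2
  have hcnt : Pool.Agent.W93.PP.Cnt 1 d = 1 := by
    unfold Pool.Agent.W93.PP.Cnt
    simp
  rw [hcnt, Nat.cast_one, div_one] at h2
  refine hratio x hx0 (singular d) (pi2 x d) (Pool.Agent.W93.GB.one_le_sing d) (le_trans (le_trans (le_of_eq ?_) h2) ?_)
  · rfl
  · have hlx : 0 < Real.log x := Real.log_pos (by linarith)
    have hxX : Real.log x ≤ Real.log X := Real.log_le_log (by linarith) hxb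
    calc (X : ℝ) / Real.log X ^ (E + 4) = X / Real.log X ^ E / Real.log X ^ 4 := by
          rw [pow_add, div_div]
      _ ≤ x / Real.log X ^ 4 := by gcongr
      _ ≤ x / Real.log x ^ 4 := by gcongr

end Pool.Agent.Results.MP_678834_nt.SmoothWindows
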