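import Pool.Agent.N469.SQ.One
import Pool.Agent.N469.SQ.Smooth

/-!
# The asymptotic formula of Hardy and Littlewood for prime tuples, for shifts without large prime factors

Definitions used: `Pool.Agent.H373R2.T7.singZ a z`: the partial product over the primes `p ≤ z` of
`(1 - ν(p) / p) / (1 - 1 / p) ^ (s + 1)`, where `ν(p)` is the number of `r < p` for which `p` divides
`r (r + a 1) ... (r + a s)`; `Pool.Agent.H373R2.T7.tupleCount a N`: the sum of
`log p * ∏ i, log (p + a i)` over the primes `p ≤ N` for which all `p + a i` are primes;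
`Pool.Agent.H373R2.T7.Admissible a`: for every prime `p` there is an `r` such that `p` divides neither
`r` nor any `r + a i`; `Pool.Agent.H560R3.GB.primeTuples a N`: the number of primes `p ≤ N` for which
all `p + a i` are primes.

The main step is an elementary bound for the exponential sum over the integers composed of primes from a
given set `P` of primes `≤ y` (`Pool.Agent.N469.SQ.exp_alt`): it is small, unless the frequency is very close to a
rational number with a small denominator. An integer is split into the product `d` of its largest prime factors and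
the product `m` of the others, and the sum over `d` is extended to all the integers of an interval.
The proof then replaces the von Mangoldt function by its sieve model in one coordinate after the other
(`Pool.Agent.TH890.os_diff`, starting files).
-/

set_option autoImplicit false

namespace Pool.Agent.Results.MP_68a45e_nt.SmoothShifts

open Finset Pool.Agent.H560R3.GB
open Pool.Agent.H373R2.T7 (singZ tupleCount Admissible)

/-- The formula of Hardy and Littlewood for the shifts `a 1, ..., a s` and the primes up to `N`: the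
singular series converges, its sum `S` predicts the weighted number of prime tuples with an error of
at most `N / log ^ U N`, and, if the shifts are admissible, `S` is positive and `S N / log ^ (s + 1) N`
predicts the number of prime tuples with a relative error of at most `ε`. -/
def Holds {s : ℕ} (ε : ℝ) (U N : ℕ) (a : Fin s → ℕ) : Prop :=
  ∃ S : ℝ, Filter.Tendsto (fun z => singZ (fun i => (a i : ℤ)) z) Filter.atTop (nhds S) ∧
    |tupleCount (fun i => (a i : ℤ)) N - S * N| ≤ (N : ℝ) / Real.log N ^ U ∧
    (Admissible (fun i => (a i : ℤ)) → 0 < S ∧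
      |(primeTuples a N : ℝ) - S * (N / Real.log N ^ (s + 1))| ≤ ε * (S * (N / Real.log N ^ (s + 1))))

/-- The integers `1 ≤ v ≤ x` all of whose prime factors belong to `P`. -/
def composedOf (P : Finset ℕ) (x : ℕ) : Finset ℕ := (Icc 1 x).filter fun v => v.primeFactors ⊆ P

/-- The `y`-smooth integers `1 ≤ v ≤ x`: the integers all of whose prime factors are at most `y`. -/
def smooth (y x : ℕ) : Finset ℕ := (Icc 1 x).filter fun v => ∀ p ∈ v.primeFactors, p ≤ y

open Classical in
/-- Let `s ≥ 1`, factors `κ i ≥ 1` (`i < s`), `B`, `K`, `U`, `δ > 0` and `ε > 0` be fixed. Let `N` be large, let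
`N / B ≤ x i ≤ N` and `1 ≤ y i ≤ log ^ K N`, and let `0 ≤ c i ≤ B N` be arbitrary integers.

(1) Let `P i` be an arbitrary set of primes which are at most `y i`, with at least `(y i) ^ (1 / 2 + δ) log N` elements.
Then the formula of Hardy and Littlewood holds for the primes `p ≤ N` and the
tuple `p, p + c 1 + κ 1 * v 1, ..., p + c s + κ s * v s` for all the vectors `(v 1, ..., v s)` of integers
`v i ≤ x i` composed of primes from `P i`, with the exception of a proportion of at most `1 / log ^ U N` of these vectors.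
(There can be as few as about `N ^ (1 / 2 + δ)` such integers.)

(2) In particular it holds for almost all the vectors of `y i`-smooth numbers `v i ≤ x i`, if `y i ≥ log ^ (2 + δ) N`. -/
theorem result (s : ℕ) (hs : 1 ≤ s) (κ : Fin s → ℕ) (hκ : ∀ i, 1 ≤ κ i) (B K U : ℕ) (δ ε : ℝ) (hδ : 0 < δ) (hε : 0 < ε) :
    ∃ N₀ : ℕ, ∀ N, N₀ ≤ N → ∀ x y c : Fin s → ℕ, (∀ i, x i ≤ N ∧ N ≤ B * x i) →
      (∀ i, 1 ≤ y i ∧ (y i : ℝ) ≤ Real.log N ^ K) → (∀ i, c i ≤ B * N) →
      (∀ P : Fin s → Finset ℕ, (∀ i, ∀ p ∈ P i, p.Prime ∧ p ≤ y i) →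
        (∀ i, (y i : ℝ) ^ (1 / 2 + δ) * Real.log N ≤ (P i).card) →
        (((Fintype.piFinset fun i => composedOf (P i) (x i)).filter fun v =>
          ¬ Holds ε U N (fun i => c i + κ i * v i)).card : ℝ) ≤
          ((Fintype.piFinset fun i => composedOf (P i) (x i)).card : ℝ) / Real.log N ^ U) ∧
      ((∀ i, Real.log N ^ (2 + δ) ≤ y i) →
        (((Fintype.piFinset fun i => smooth (y i) (x i)).filter fun v =>
          ¬ Holds ε U N (fun i => c i + κ i * v i)).card : ℝ) ≤
          ((Fintype.piFinset fun i => smooth (y i) (x i)).card : ℝ) / Real.log N ^ U) := by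
  -- the general estimate for a given `δ`
  have gen : ∀ δ : ℝ, 0 < δ → ∃ N₀ : ℕ, ∀ N, N₀ ≤ N → ∀ x y c : Fin s → ℕ, (∀ i, x i ≤ N ∧ N ≤ B * x i) →
      (∀ i, 1 ≤ y i ∧ (y i : ℝ) ≤ Real.log N ^ K) → (∀ i, c i ≤ B * N) →
      ∀ P : Fin s → Finset ℕ, (∀ i, ∀ p ∈ P i, p.Prime ∧ p ≤ y i) →
        (∀ i, (y i : ℝ) ^ (1 / 2 + δ) * Real.log N ≤ (P i).card) →
        (((Fintype.piFinset fun i => composedOf (P i) (x i)).filter fun v =>
          ¬ Holds ε U N (fun i => c i + κ i * v i)).card : ℝ) ≤
          ((Fintype.piFinset fun i => composedOf (P i) (x i)).card : ℝ) / Real.log N ^ U := by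
    intro δ hδ
    obtain ⟨N1, h1⟩ := Pool.Agent.N469.PT.ws_final s hs (fun _ => Pool.Agent.N469.SQ.Sm δ B K) κ hκ B U ε hε
      (fun i => Pool.Agent.N469.SQ.sm_one δ hδ B K (κ i) (hκ i) B _)
    refine ⟨N1 + B + 1, fun N hN x y c hx hy hc P hP hcard => ?_⟩
    have h := h1 N (by omega) (fun i => composedOf (P i) (x i)) (fun i _ => 1 / ((composedOf (P i) (x i)).card : ℝ))
      (fun i => ⟨P i, y i, x i, (hx i).1, (hx i).2, hP i, (hy i).1, (hy i).2, hcard i, rfl, rfl⟩) c hc
    have hpos : ∀ i, (0 : ℝ) < ((composedOf (P i) (x i)).card : ℝ) := by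
      intro i
      have h2 : 1 ≤ x i := by
        rcases Nat.eq_zero_or_pos (x i) with h0 | h0
        · have := (hx i).2
          rw [h0] at this
          omega
        · exact h0
      exact_mod_cast card_pos.2 ⟨1, mem_filter.2 ⟨mem_Icc.2 ⟨le_rfl, h2⟩, by simp⟩⟩
    have hprod : (0 : ℝ) < ((Fintype.piFinset fun i => composedOf (P i) (x i)).card : ℝ) := by
      rw [Fintype.card_piFinset]
      push_cast
      exact prod_pos fun i _ => hpos i
    have e1 : ∑ m ∈ Fintype.piFinset (fun i => composedOf (P i) (x i)),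
        (if ¬ Pool.Agent.W93.TD.HLs ε U N (fun i => c i + κ i * m i) then ∏ i, 1 / ((composedOf (P i) (x i)).card : ℝ) else 0) =
        (((Fintype.piFinset fun i => composedOf (P i) (x i)).filter fun v => ¬ Holds ε U N (fun i => c i + κ i * v i)).card : ℝ) /
          ((Fintype.piFinset fun i => composedOf (P i) (x i)).card : ℝ) := by
      rw [← sum_filter, sum_const, nsmul_eq_mul, prod_div_distrib, prod_const_one, mul_one_div, Fintype.card_piFinset]
      push_cast
      rfl
    rw [e1, div_le_iff₀ hprod] at h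
    refine h.trans (le_of_eq ?_)
    ring
  obtain ⟨δ', N1, hδ', h1⟩ := Pool.Agent.N469.SQ.PR_cond δ hδ
  obtain ⟨N2, h2⟩ := gen δ hδ
  obtain ⟨N3, h3⟩ := gen δ' hδ'
  refine ⟨N1 + N2 + N3, fun N hN x y c hx hy hc => ⟨fun P hP hcard => h2 N (by omega) x y c hx hy hc P hP hcard, fun hyl => ?_⟩⟩
  have h4 := h3 N (by omega) x y c hx hy hc (fun i => Pool.Agent.N469.SQ.PR (y i))
    (fun i p hp => Pool.Agent.N469.SQ.mem_PR.1 hp) (fun i => (h1 N (by omega) (y i) (hyl i)).2)
  have e1 : ∀ i, smooth (y i) (x i) = composedOf (Pool.Agent.N469.SQ.PR (y i)) (x i) := by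
    intro i
    ext v
    unfold smooth composedOf
    rw [mem_filter, mem_filter]
    constructor
    · rintro ⟨h5, h6⟩
      exact ⟨h5, fun p hp => Pool.Agent.N469.SQ.mem_PR.2 ⟨Nat.prime_of_mem_primeFactors hp, h6 p hp⟩⟩
    · rintro ⟨h5, h6⟩
      exact ⟨h5, fun p hp => (Pool.Agent.N469.SQ.mem_PR.1 (h6 hp)).2⟩
  simp only [e1]
  exact h4

end Pool.Agent.Results.MP_68a45e_nt.SmoothShifts
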