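import Pool.Agent.N469.TL.Tup2
import Pool.Agent.Y885.KP3

/-!
# The Liouville function at the values of polynomials: constant terms near smooth numbers

Nothing is used besides Mathlib in the statement.

The proof combines an elementary bound for the exponential sum over the integers composed of primes from a given set
(`Pool.Agent.N469.SQ.exp_alt`: it is large only near few rational numbers with small denominators) with the second moment
method of the starting files for correlations of the Liouville function (`Pool.Agent.Y885.tl_probZ`).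
-/

set_option autoImplicit false

namespace Pool.Agent.Results.MP_892e4c_nt.SmoothConstants

open Finset

/-- The Liouville function on the integers, `λ(-m) = λ(m)` and `λ(0) = 0`. -/
def lam (m : ℤ) : ℤ := if m = 0 then 0 else (-1) ^ ArithmeticFunction.cardFactors m.natAbs

/-- The product of the polynomial `f` and of the linear polynomials `α i X + h i`, `i ∈ I`. -/
noncomputable def prodPoly {s : ℕ} (f : Polynomial ℤ) (α : Fin s → ℕ) (h : Fin s → ℤ) (I : Finset (Fin s)) : Polynomial ℤ :=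
  f * ∏ i ∈ I, (Polynomial.C (α i : ℤ) * Polynomial.X + Polynomial.C (h i))

/-- The sum of `θ(n) λ(F(n))`, where `F` is the product of `f` and of the `α i X + h i`, `i ∈ I`, over the `1 ≤ n ≤ x` for
which all the `α i n + h i`, `i ∈ I`, are positive. -/
noncomputable def lamSum {s : ℕ} (θ : ℕ → ℂ) (f : Polynomial ℤ) (α : Fin s → ℕ) (h : Fin s → ℤ) (I : Finset (Fin s))
    (x : ℕ) : ℂ :=
  ∑ n ∈ (Icc 1 x).filter (fun n : ℕ => ∀ i ∈ I, 0 < (α i : ℤ) * n + h i), θ n * (lam ((prodPoly f α h I).eval (n : ℤ)) : ℂ)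

/-- For all nonempty sets `I` of indices, all `l`, and all `x` with `α i * x ≤ X` for `i ∈ I`:
`|∑ n ≤ x, θ l n * λ(F(n))| ≤ ε`, where `F` is the product of `f l` and of the `α i X + h i`, `i ∈ I`. -/
def Small (X : ℕ) (ε : ℝ) {s L : ℕ} (f : Fin L → Polynomial ℤ) (θ : Fin L → ℕ → ℂ) (α : Fin s → ℕ) (h : Fin s → ℤ) : Prop :=
  ∀ I : Finset (Fin s), I.Nonempty → ∀ l, ∀ x : ℕ, (∀ i ∈ I, α i * x ≤ X) → ‖lamSum (θ l) (f l) α h I x‖ ≤ ε

/-- The integers `1 ≤ v ≤ N` all of whose prime factors belong to `P`. -/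
def composedOf (P : Finset ℕ) (N : ℕ) : Finset ℕ := (Icc 1 N).filter fun v => v.primeFactors ⊆ P

/-- The `y`-smooth integers `1 ≤ v ≤ N`: the integers all of whose prime factors are at most `y`. -/
def smooth (y N : ℕ) : Finset ℕ := (Icc 1 N).filter fun v => ∀ p ∈ v.primeFactors, p ≤ y

lemma lam_mul (m n : ℤ) : lam (m * n) = lam m * lam n := Pool.Agent.Y885.laZ_mul m n

lemma lam_prod {ι : Type} (I : Finset ι) (g : ι → ℤ) : lam (∏ i ∈ I, g i) = ∏ i ∈ I, lam (g i) := Pool.Agent.Y885.laZ_prod I g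

lemma norm_lam_le (m : ℤ) : ‖(lam m : ℂ)‖ ≤ 1 := by
  unfold lam
  split_ifs
  · simp
  · push_cast
    rw [norm_pow]
    simp

lemma lam_pos (m : ℤ) (hm : 0 < m) : (lam m : ℂ) = Pool.Agent.H373R2.T7.exI (fun n => ((Pool.Agent.Y885.laR n : ℝ) : ℂ)) m := by
  unfold Pool.Agent.H373R2.T7.exI
  rw [if_pos (by omega)]
  simp only
  rw [← Pool.Agent.Y885.laZ_pos _ (by omega), Int.toNat_of_nonneg (by omega)]
  rw [Complex.ofReal_intCast]
  rfl

lemma sum_eq {s : ℕ} (θ : ℕ → ℂ) (f : Polynomial ℤ) (α : Fin s → ℕ) (h : Fin s → ℤ) (I : Finset (Fin s)) (x : ℕ) :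
    lamSum θ f α h I x = ∑ n ∈ Icc 1 x, (θ n * (lam (f.eval (n : ℤ)) : ℂ)) *
      ∏ i ∈ I, Pool.Agent.H373R2.T7.exI (fun n => ((Pool.Agent.Y885.laR n : ℝ) : ℂ)) (((α i * n : ℕ) : ℤ) + h i) := by
  unfold lamSum
  rw [sum_filter]
  apply sum_congr rfl
  intro n _
  split_ifs with hn
  · have e1 : (prodPoly f α h I).eval (n : ℤ) = f.eval (n : ℤ) * ∏ i ∈ I, ((α i : ℤ) * n + h i) := by
      unfold prodPoly
      rw [Polynomial.eval_mul, Polynomial.eval_prod]
      congr 1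
      apply prod_congr rfl
      intro i _
      simp
    rw [e1, lam_mul, lam_prod]
    push_cast
    rw [mul_assoc]
    congr 2
    apply prod_congr rfl
    intro i hi
    exact lam_pos _ (hn i hi)
  · push Not at hn
    obtain ⟨i, hi, hle⟩ := hn
    have e2 : ∏ i ∈ I, Pool.Agent.H373R2.T7.exI (fun n => ((Pool.Agent.Y885.laR n : ℝ) : ℂ)) (((α i * n : ℕ) : ℤ) + h i) = 0 := by
      apply prod_eq_zero hi
      unfold Pool.Agent.H373R2.T7.exI
      rw [if_neg (by push_cast; omega)]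
    rw [e2, mul_zero]

open Classical in
/-- Let `s`, `A`, `T`, `U`, `K`, `B`, the integers `κ i ≠ 0` (`i < s`) and `δ > 0` be fixed, let `N` be large, let `c i` be
integers with `|c i| ≤ B N`, let `α i ≥ 1` be arbitrary integers, let `1 ≤ y i ≤ log ^ K N`, and let `f l`, for at most
`log ^ T N` indices `l`, be arbitrary polynomials with integer coefficients (of any degree), with arbitrary weights
`θ l : ℕ → ℂ` bounded by `1`.

(1) Let `P i` be arbitrary sets of primes which are at most `y i`, with at least `(y i) ^ (1 / 2 + δ) log N` elements. Then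
for all the vectors `v` of integers `v i ≤ N` composed of primes from `P i`, up to a proportion of at most `1 / log ^ U N`
of them, ALL the vectors `h` of integers with `|h i - (c i + κ i v i)| ≤ log ^ A N` have the following property:
`|∑ n ≤ x, θ l n * λ(F(n))| ≤ N / log ^ U N`, `F = f l * ∏ i ∈ I, (α i X + h i)`, for all `l`, all nonempty sets `I` of
indices and all `x ≤ B N / max (α i)`; here the sum is over the `n` at which the linear factors are positive.

(2) In particular this holds for all the vectors `v` of `y i`-smooth integers `v i ≤ N`, up to a proportion of at most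
`1 / log ^ U N` of them, if `y i ≥ log ^ (2 + δ) N`. -/
theorem result (s A T U K B : ℕ) (κ : Fin s → ℤ) (hκ : ∀ i, κ i ≠ 0) (δ : ℝ) (hδ : 0 < δ) :
    ∃ N₀ : ℕ, ∀ N, N₀ ≤ N → ∀ y : Fin s → ℕ, (∀ i, 1 ≤ y i) → (∀ i, (y i : ℝ) ≤ Real.log N ^ K) →
      ∀ c : Fin s → ℤ, (∀ i, |c i| ≤ B * N) → ∀ α : Fin s → ℕ, (∀ i, 1 ≤ α i) →
      ∀ L : ℕ, (L : ℝ) ≤ Real.log N ^ T → ∀ (f : Fin L → Polynomial ℤ) (θ : Fin L → ℕ → ℂ), (∀ l n, ‖θ l n‖ ≤ 1) →
      (∀ P : Fin s → Finset ℕ, (∀ i, ∀ p ∈ P i, p.Prime ∧ p ≤ y i) →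
        (∀ i, (y i : ℝ) ^ (1 / 2 + δ) * Real.log N ≤ (P i).card) →
        (((Fintype.piFinset fun i => composedOf (P i) N).filter fun v : Fin s → ℕ => ∃ h : Fin s → ℤ,
          (∀ i, |((h i - (c i + κ i * v i) : ℤ) : ℝ)| ≤ Real.log N ^ A) ∧
          ¬ Small (B * N) (N / Real.log N ^ U) f θ α h).card : ℝ) ≤ (∏ i, ((composedOf (P i) N).card : ℝ)) / Real.log N ^ U) ∧
      ((∀ i, Real.log N ^ (2 + δ) ≤ y i) →
        (((Fintype.piFinset fun i => smooth (y i) N).filter fun v : Fin s → ℕ => ∃ h : Fin s → ℤ,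
          (∀ i, |((h i - (c i + κ i * v i) : ℤ) : ℝ)| ≤ Real.log N ^ A) ∧
          ¬ Small (B * N) (N / Real.log N ^ U) f θ α h).card : ℝ) ≤ (∏ i, ((smooth (y i) N).card : ℝ)) / Real.log N ^ U) := by
  obtain ⟨δ', N1, hδ', h1⟩ := Pool.Agent.N469.SQ.PR_cond δ hδ
  obtain ⟨N2, h2⟩ := Pool.Agent.N469.TL.sm_tuples s K B A T U κ hκ Pool.Agent.Y885.laR Pool.Agent.Y885.fine_lam δ hδ
  obtain ⟨N3, h3⟩ := Pool.Agent.N469.TL.sm_tuples s K B A T U κ hκ Pool.Agent.Y885.laR Pool.Agent.Y885.fine_lam δ' hδ'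
  obtain ⟨N4, h4⟩ := Pool.Agent.H373R2.T7.ev_L' 1
  refine ⟨N1 + N2 + N3 + N4 + 1, fun N hN y hy hy' c hc α hα L hL f θ hθ => ?_⟩
  have hg : ∀ (l : Fin L) (n : ℕ), 1 ≤ n → n ≤ B * N → ‖θ l n * (lam ((f l).eval (n : ℤ)) : ℂ)‖ ≤ Real.log N ^ T := by
    intro l n _ _
    rw [norm_mul]
    calc ‖θ l n‖ * ‖(lam ((f l).eval (n : ℤ)) : ℂ)‖ ≤ 1 * 1 := mul_le_mul (hθ l n) (norm_lam_le _) (norm_nonneg _) zero_le_one
      _ = 1 := one_mul 1
      _ ≤ _ := one_le_pow₀ (h4 N (by omega))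
  have hE : ∀ v : Fin s → ℕ, (∃ h : Fin s → ℤ, (∀ i, |((h i - (c i + κ i * v i) : ℤ) : ℝ)| ≤ Real.log N ^ A) ∧
      ¬ Small (B * N) (N / Real.log N ^ U) f θ α h) → ∃ z : Fin s → ℤ,
      (∀ j, |((z j - (c j + κ j * (v j : ℤ)) : ℤ) : ℝ)| ≤ Real.log N ^ A) ∧
      ∃ l, ∃ I : Finset (Fin s), I.Nonempty ∧ ∃ x : ℕ, (∀ i ∈ I, α i * x ≤ B * N) ∧
        (N : ℝ) / Real.log N ^ U < ‖∑ n ∈ Icc 1 x, (θ l n * (lam ((f l).eval (n : ℤ)) : ℂ)) *
          ∏ j ∈ I, Pool.Agent.H373R2.T7.exI (fun n => ((Pool.Agent.Y885.laR n : ℝ) : ℂ)) (((α j * n : ℕ) : ℤ) + z j)‖ := by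
    rintro v ⟨h, hh, hbad⟩
    unfold Small at hbad
    push Not at hbad
    obtain ⟨I, hI, l, x, hx, hlt⟩ := hbad
    rw [sum_eq] at hlt
    exact ⟨h, hh, l, I, hI, x, hx, hlt⟩
  refine ⟨fun P hP hcard => ?_, fun hyl => ?_⟩
  · exact h2 N (by omega) P y (fun i => ⟨hP i, hy i, hy' i, hcard i⟩) c hc L hL α
      (fun l n => θ l n * (lam ((f l).eval (n : ℤ)) : ℂ)) hα hg _ _ hE
  · have := h3 N (by omega) (fun i => Pool.Agent.N469.SQ.PR (y i)) y (fun i => ⟨fun p hp => Pool.Agent.N469.SQ.mem_PR.1 hp, hy i, hy' i,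
      (h1 N (by omega) (y i) (hyl i)).2⟩) c hc L hL α (fun l n => θ l n * (lam ((f l).eval (n : ℤ)) : ℂ)) hα hg
      (fun v : Fin s → ℕ => ∃ h : Fin s → ℤ, (∀ i, |((h i - (c i + κ i * v i) : ℤ) : ℝ)| ≤ Real.log N ^ A) ∧
          ¬ Small (B * N) (N / Real.log N ^ U) f θ α h) (fun v => inferInstance) hE
    have e : ∀ i, smooth (y i) N = Pool.Agent.N469.SM.SS (Pool.Agent.N469.SQ.PR (y i)) N := fun i =>
      Pool.Agent.N469.TL.smooth_eq (y i) N
    simp only [e]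
    exact this

end Pool.Agent.Results.MP_892e4c_nt.SmoothConstants
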