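import Pool.Agent.N469.TL.Sets

/-!
# Primes in arbitrary sets of reduced classes, for almost all smooth moduli

Nothing is used besides Mathlib in the statement.

The proof combines an elementary bound for the exponential sum over the integers composed of primes from a given set
(`Pool.Agent.N469.SQ.exp_alt`: it is large only near few rational numbers with small denominators) with the argument of
the starting files for the variance over random moduli (`Pool.Agent.Y958.RM.main`) and the passage from the variance to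
the least primes (`Pool.Agent.R501.LP.lpg_of_var`).
-/

set_option autoImplicit false

namespace Pool.Agent.Results.MP_e1dc24_nt.SmoothModuli

open Finset

/-- `ψ(x; m, a) = ∑_{n ≤ x, n ≡ a mod m} Λ(n)` for `0 ≤ a < m` -/
noncomputable def psiAP (x : ℝ) (m a : ℕ) : ℝ :=
  ∑ n ∈ (Icc 1 ⌊x⌋₊).filter (fun n => n % m = a), ArithmeticFunction.vonMangoldt n

open Classical in
/-- For EVERY set `S` of reduced classes modulo `m` (represented by integers `0 ≤ a < m`):

(a) if `S` is not empty and `#S ≥ φ(m) / log ^ T m`, then there is a prime `p ≤ (1 + ε) (φ(m) / #S) φ(m) log m` with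
`p mod m ∈ S`;

(b) for all real `x` with `m ≤ x ≤ m log ^ T m`, the sum of `Λ(n)` over the `n ≤ x` with `n mod m ∈ S` is equal to
`#S x / φ(m)` with an error of at most `√((1 + ε) #S x log m)`. -/
def Holds (ε : ℝ) (T m : ℕ) : Prop :=
  ∀ S : Finset ℕ, S ⊆ (range m).filter (fun a => Nat.Coprime a m) →
    (1 ≤ S.card → (Nat.totient m : ℝ) / Real.log m ^ T ≤ S.card →
      ∃ p : ℕ, p.Prime ∧ p % m ∈ S ∧ (p : ℝ) * S.card ≤ (1 + ε) * (Nat.totient m : ℝ) ^ 2 * Real.log m) ∧
    ∀ x : ℝ, (m : ℝ) ≤ x → x ≤ m * Real.log m ^ T →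
      (∑ a ∈ S, psiAP x m a - S.card * (x / Nat.totient m)) ^ 2 ≤ (1 + ε) * (S.card * (x * Real.log m))

/-- The integers `1 ≤ v ≤ N` all of whose prime factors belong to `P`. -/
def composedOf (P : Finset ℕ) (N : ℕ) : Finset ℕ := (Icc 1 N).filter fun v => v.primeFactors ⊆ P

/-- The `y`-smooth integers `1 ≤ v ≤ N`: the integers all of whose prime factors are at most `y`. -/
def smooth (y N : ℕ) : Finset ℕ := (Icc 1 N).filter fun v => ∀ p ∈ v.primeFactors, p ≤ y

open Classical in
/-- Let `A`, `T`, `U`, `K`, `B`, the integer `κ ≠ 0`, `0 < ε ≤ 1` and `δ > 0` be fixed, let `N` be large,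
`1 ≤ y ≤ log ^ K N`, and let `c` be an arbitrary integer with `|c| ≤ B N`.

(1) Let `P` be an arbitrary set of primes which are at most `y`, with at least `y ^ (1 / 2 + δ) log N` elements. Then
for all the integers `v ≤ N` composed of primes from `P`, up to a proportion of at most `1 / log ^ U N` of them, ALL the
moduli `m > 0` with `|m - (c + κ v)| ≤ log ^ A N` have the following property: every nonempty set `S` of reduced classes
modulo `m` with at least `φ(m) / log ^ T m` elements contains the class of a prime `p ≤ (1 + ε) (φ(m) / #S) φ(m) log m` (for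
example, every coset of every subgroup of index `h ≤ log ^ T m` of the group of reduced classes contains the class of a
prime `p ≤ (1 + ε) h φ(m) log m`); and for every set `S` of reduced classes and all `x ≤ m log ^ T m`, `x ≥ m`, the
sum of `Λ(n)` over the `n ≤ x` with `n mod m ∈ S` is `#S x / φ(m)` up to `√((1 + ε) #S x log m)`. (There can be as few as
about `N ^ (1 / 2 + δ)` such integers `v`.)

(2) In particular this holds for all the `y`-smooth integers `v ≤ N`, up to a proportion of at most `1 / log ^ U N` of them,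
if `y ≥ log ^ (2 + δ) N`. (For `c = 0`, `κ = 1` the moduli are the smooth numbers themselves and all their neighbours.) -/
theorem result (A T U K B : ℕ) (κ : ℤ) (hκ : κ ≠ 0) (ε : ℝ) (hε : 0 < ε) (hε1 : ε ≤ 1) (δ : ℝ) (hδ : 0 < δ) :
    ∃ N₀ : ℕ, ∀ N, N₀ ≤ N → ∀ y : ℕ, 1 ≤ y → (y : ℝ) ≤ Real.log N ^ K → ∀ c : ℤ, |c| ≤ B * N →
      (∀ P : Finset ℕ, (∀ p ∈ P, p.Prime ∧ p ≤ y) → (y : ℝ) ^ (1 / 2 + δ) * Real.log N ≤ P.card →
        (((composedOf P N).filter fun v : ℕ => ∃ m : ℕ, 0 < m ∧ |((m - (c + κ * v) : ℤ) : ℝ)| ≤ Real.log N ^ A ∧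
          ¬ Holds ε T m).card : ℝ) ≤ ((composedOf P N).card : ℝ) / Real.log N ^ U) ∧
      (Real.log N ^ (2 + δ) ≤ y →
        (((smooth y N).filter fun v : ℕ => ∃ m : ℕ, 0 < m ∧ |((m - (c + κ * v) : ℤ) : ℝ)| ≤ Real.log N ^ A ∧
          ¬ Holds ε T m).card : ℝ) ≤ ((smooth y N).card : ℝ) / Real.log N ^ U) := by
  obtain ⟨N₀, h0⟩ := Pool.Agent.N469.TL.both δ hδ K U _ (Pool.Agent.N469.TL.sm_var κ hκ K B A (T + T + 2) U (ε / 4)
    (by positivity) (by linarith) (fun q => Pool.Agent.N469.TL.SetG ε T T q) (Pool.Agent.N469.TL.sets_of_var T T ε hε hε1))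
  refine ⟨N₀, fun N hN y hy hy' c hc => ?_⟩
  refine h0 N hN y hy hy' (fun v : ℕ => ∃ m : ℕ, 0 < m ∧ |((m - (c + κ * v) : ℤ) : ℝ)| ≤ Real.log N ^ A ∧
          ¬ Holds ε T m) (fun v => inferInstance) ⟨c, hc, fun v hv => ?_⟩
  obtain ⟨m, hm0, hm, hbad⟩ := hv
  have e0 : c + κ * (v : ℤ) + ((m : ℤ) - (c + κ * v)) = m := by ring
  refine ⟨(m : ℤ) - (c + κ * v), hm, by rw [e0]; exact_mod_cast hm0, ?_⟩
  rw [e0, Int.toNat_natCast]
  exact hbad

end Pool.Agent.Results.MP_e1dc24_nt.SmoothModuli
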