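import Pool.Agent.N469.PT.Anag

/-!
# The asymptotic formula of Hardy and Littlewood for prime tuples, for shifts with rearranged digits

Definitions used: `Pool.Agent.H373R2.T7.singZ a z`: the partial product over the primes `p ≤ z` of
`(1 - ν(p) / p) / (1 - 1 / p) ^ (s + 1)`, where `ν(p)` is the number of `r < p` for which `p` divides
`r (r + a 1) ... (r + a s)`; `Pool.Agent.H373R2.T7.tupleCount a N`: the sum of
`log p * ∏ i, log (p + a i)` over the primes `p ≤ N` for which all `p + a i` are primes;
`Pool.Agent.H373R2.T7.Admissible a`: for every prime `p` there is an `r` such that `p` divides neither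
`r` nor any `r + a i`; `Pool.Agent.H560R3.GB.primeTuples a N`: the number of primes `p ≤ N` for which
all `p + a i` are primes.

The proof replaces the von Mangoldt function by its sieve model in one coordinate after the other
(`Pool.Agent.TH890.os_diff`, starting files). The input is an estimate for one random shift, which follows from the
decay of the characteristic function of an integer with randomly permuted digits (`Pool.Agent.TH872.An.an_law`,
starting files).
-/

set_option autoImplicit false

namespace Pool.Agent.Results.MP_e87c7d_nt.RearrangedShifts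

open Finset Pool.Agent.H560R3.GB
open Pool.Agent.H373R2.T7 (singZ tupleCount Admissible)

/-- The formula of Hardy and Littlewood for the tuple `p, p + a 1, ..., p + a s` and the primes `p ≤ N`: the
singular series converges, its sum `S` predicts the weighted number of prime tuples with an error of
at most `N / log ^ U N`, and, if the shifts are admissible, `S` is positive and `S N / log ^ (s + 1) N`
predicts the number of prime tuples with a relative error of at most `ε`. -/
def Holds {s : ℕ} (ε : ℝ) (U N : ℕ) (a : Fin s → ℕ) : Prop :=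
  ∃ S : ℝ, Filter.Tendsto (fun z => singZ (fun i => (a i : ℤ)) z) Filter.atTop (nhds S) ∧
    |tupleCount (fun i => (a i : ℤ)) N - S * N| ≤ (N : ℝ) / Real.log N ^ U ∧
    (Admissible (fun i => (a i : ℤ)) → 0 < S ∧
      |(primeTuples a N : ℝ) - S * (N / Real.log N ^ (s + 1))| ≤ ε * (S * (N / Real.log N ^ (s + 1))))

/-- The integer with the rearranged digits: its digit number `j` in base `b` is `d (σ j)`. -/
def value (b : ℕ) {k : ℕ} (d : Fin k → ℕ) (σ : Equiv.Perm (Fin k)) : ℕ := ∑ j : Fin k, d (σ j) * b ^ (j : ℕ)

open Classical in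
/-- Let `s ≥ 1`, bases `b i ≥ 2`, factors `κ i ≥ 1` (`i < s`), `B`, `U`, `η > 0` and `ε > 0` be fixed. Let `N` be large, let
the numbers `k i` satisfy `N / B ≤ b i ^ k i ≤ B N`, let `0 ≤ c i ≤ B N` be arbitrary integers, and for every `i` let
`d i` be an arbitrary string of `k i` digits in base `b i`, in which no digit occurs at more than `(1 - η) k i` of the
`k i` places. Then the formula of Hardy and Littlewood for the primes `p ≤ N` and the tuple
`p, p + c 1 + κ 1 * v 1, ..., p + c s + κ s * v s` holds for almost all the vectors `(v 1, ..., v s)` of rearrangements `v i`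
of the digits `d i`: the number of the exceptional vectors `(σ 1, ..., σ s)` of permutations of the places is at most
`k 1 ! ... k s ! / log ^ U N`. -/
theorem result (s : ℕ) (hs : 1 ≤ s) (b : Fin s → ℕ) (hb : ∀ i, 2 ≤ b i) (κ : Fin s → ℕ) (hκ : ∀ i, 1 ≤ κ i)
    (B U : ℕ) (η ε : ℝ) (hη : 0 < η) (hε : 0 < ε) :
    ∃ N₀ : ℕ, ∀ N, N₀ ≤ N → ∀ k : Fin s → ℕ, (∀ i, b i ^ k i ≤ B * N ∧ N ≤ B * b i ^ k i) →
      ∀ c : Fin s → ℕ, (∀ i, c i ≤ B * N) → ∀ d : ∀ i, Fin (k i) → ℕ, (∀ i j, d i j < b i) →
      (∀ i a, ((univ.filter fun j => d i j = a).card : ℝ) ≤ (1 - η) * k i) →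
      ((univ.filter fun σ : ∀ i, Equiv.Perm (Fin (k i)) =>
        ¬ Holds ε U N (fun i => c i + κ i * value (b i) (d i) (σ i))).card : ℝ) ≤
        (∏ i, ((k i).factorial : ℝ)) / Real.log N ^ U := by
  obtain ⟨N1, h1⟩ := Pool.Agent.N469.PT.ws_final s hs (fun i => Pool.Agent.N469.PT.Ac (b i) B η) κ hκ B U ε hε
    (fun i => Pool.Agent.N469.PT.anag_one (b i) B (hb i) η hη (κ i) (hκ i) B _)
  refine ⟨N1, fun N hN k hk c hc d hd1 hd2 => ?_⟩
  have hS : ∀ i, Pool.Agent.TH872.An.Spread (b i) (k i) η (d i) := by
    intro i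
    refine ⟨hd1 i, fun a => ?_⟩
    convert hd2 i a
  have h := h1 N hN (fun i => range (b i ^ k i)) (fun i => Pool.Agent.N469.PT.aw (b i) (d i))
    (fun i => ⟨k i, d i, (hk i).1, (hk i).2, hS i, rfl, rfl⟩) c hc
  have h5 := Pool.Agent.N469.PT.anag_count s b k hb η d hS (fun v => ¬ Holds ε U N (fun i => c i + κ i * v i))
    (1 / Real.log N ^ U) (by
      refine le_trans (le_of_eq ?_) h
      apply sum_congr rfl
      intro v _
      by_cases hH : Holds ε U N (fun i => c i + κ i * v i)
      · have hH' : ¬ ¬ Pool.Agent.W93.TD.HLs ε U N (fun i => c i + κ i * v i) := not_not.2 hH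
        rw [if_neg (not_not.2 hH), if_neg hH']
      · have hH' : ¬ Pool.Agent.W93.TD.HLs ε U N (fun i => c i + κ i * v i) := hH
        rw [if_pos hH, if_pos hH'])
  rw [mul_one_div] at h5
  refine le_trans (le_of_eq ?_) h5
  congr 2
  ext σ
  simp only [mem_filter, mem_univ, true_and]
  exact Iff.rfl

end Pool.Agent.Results.MP_e87c7d_nt.RearrangedShifts
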